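import Mathlib
import Pool.Agent.W5h46.LS.Par
set_option autoImplicit false

/-!
# Stein's restriction conjecture for densities with gaps in the spherical harmonic expansion

Let `n ≥ 3` and let `p > 2n/(n-1)` be any exponent in the full conjectured range. There is a number
`δ > 0` such that for every `c > 0` there is a constant `C` with the following property. Let `g` be
an arbitrary function in `L^p(S^(n-1))` such that any two degrees `k < l` of the same parity which
occur in the spherical harmonic expansion of `g` satisfy `l - k ≥ c k^(1-δ)`. Then the Fourier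
transform of `g dσ` is in `L^p(ℝ^n)`, and its norm is at most `C ‖g‖_p`.

The components of `g` of the degrees which occur are arbitrary spherical harmonics; no smoothness,
no symmetry and no decay of the expansion is assumed. The set of degrees can be much denser than a
Hadamard lacunary sequence: gaps of length `k / (log k)^A` are allowed for all `p` in the range.

Proof: for a degree `k` surrounded by gaps of length `W` the projection to degree `k` is dominated
by `C (k/W)^(n+1)` times a positive average of `|g|` of Poisson type (the generating function of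
the zonal harmonics on the circle of radius `1 - 1/k` is dominated by its value at the real point
times `(1 + 2k|θ|)^(n+1)`, and it is averaged against the power `n+3` of a Dirichlet kernel), so it
is bounded in `L^p`; the Fourier transform of a spherical harmonic of degree `k` is this harmonic
times a Bessel function, whose `L^p` norm over `R < |x| < 2R` is at most `C R^(-η)` uniformly in
`k`, and only `O(R^δ)` degrees are smaller than `16 R`; the others contribute `O(2^(-R))`.
-/

namespace Pool.Agent.Results.MP_6cbfb8_an.SpectralGaps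

open MeasureTheory Measure Set Metric
open scoped ENNReal NNReal RealInnerProductSpace

/-- Euclidean space -/
abbrev E (n : ℕ) := EuclideanSpace ℝ (Fin n)

/-- surface measure on the unit sphere -/
noncomputable def sigma (n : ℕ) : Measure (sphere (0 : E n) 1) := (volume : Measure (E n)).toSphere

/-- the Fourier transform of the measure `g dσ` -/
noncomputable def ft {n : ℕ} (g : sphere (0 : E n) 1 → ℂ) (ξ : E n) : ℂ :=
  ∫ x, Complex.exp (-(2 * Real.pi * ⟪(x : E n), ξ⟫ : ℝ) * Complex.I) * g x ∂(sigma n)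

/-- The degree `k` occurs in the spherical harmonic expansion of `g`: the function `g` is not
orthogonal to all spherical harmonics of degree `k` (the restrictions to the sphere of the
homogeneous harmonic polynomials of degree `k`). -/
def Occurs {n : ℕ} (g : sphere (0 : E n) 1 → ℂ) (k : ℕ) : Prop :=
  ∃ Q : MvPolynomial (Fin n) ℂ, Q.IsHomogeneous k ∧
    ∑ i, MvPolynomial.pderiv i (MvPolynomial.pderiv i Q) = 0 ∧
    ∫ x : sphere (0 : E n) 1, g x * MvPolynomial.eval (fun i => (((x : E n) i : ℝ) : ℂ)) Q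
      ∂(sigma n) ≠ 0

open Pool.Agent.W5h46.LS in
/-- **Theorem.** Stein's restriction conjecture in the full range, for densities with gaps in the
spherical harmonic expansion. -/
theorem result (n : ℕ) (hn : 3 ≤ n) (p : ℝ) (hp : 2 * (n : ℝ) / (n - 1) < p) :
    ∃ δ : ℝ, 0 < δ ∧ ∀ c : ℝ, 0 < c → ∃ C : ℝ≥0, ∀ g : sphere (0 : E n) 1 → ℂ,
      MemLp g (ENNReal.ofReal p) (sigma n) →
      (∀ k l : ℕ, Occurs g k → Occurs g l → (Even k ↔ Even l) → k < l →
        c * (k : ℝ) ^ (1 - δ) ≤ (l : ℝ) - k) →
      MemLp (ft g) (ENNReal.ofReal p) volume ∧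
      eLpNorm (ft g) (ENNReal.ofReal p) volume ≤ C * eLpNorm g (ENNReal.ofReal p) (sigma n) := by
  have hn' : (3 : ℝ) ≤ n := by exact_mod_cast hn
  have hp0 : 0 < p := lt_trans (div_pos (by linarith) (by linarith)) hp
  have hP0 : ENNReal.ofReal p ≠ 0 := by simpa using hp0
  obtain ⟨δ, hδ0, -, h⟩ := T_Lp' hn p hp
  refine ⟨δ, hδ0, fun c hc => ?_⟩
  obtain ⟨C, hC, hT⟩ := h c hc
  set K : ℝ := |((2 * Real.pi) ^ Module.finrank ℝ (E n))⁻¹| * C with hK
  have hK0 : 0 ≤ K := by positivity
  refine ⟨Real.toNNReal (K ^ (1 / p)), ?_⟩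
  intro g hg hgap
  -- a measurable extension
  obtain ⟨g0, hg0, hgg⟩ := hg.1
  set G : E n → ℂ := Function.extend Subtype.val g0 0 with hGdef
  have hGm : Measurable G :=
    (MeasurableEmbedding.subtype_coe isClosed_sphere.measurableSet).measurable_extend
      hg0.measurable measurable_zero
  have hGg : ∀ᵐ x : sphere (0 : E n) 1 ∂(sigma n), G (x : E n) = g x := by
    filter_upwards [hgg] with x hx
    rw [hGdef, Subtype.val_injective.extend_apply, hx]
  have hlint : ∀ f : E n → ℝ≥0∞, Measurable f → ∫⁻ x, f x ∂(Pool.Agent.H789R2.FR.sg n) =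
      ∫⁻ x : sphere (0 : E n) 1, f (x : E n) ∂(sigma n) := by
    intro f hf
    rw [Pool.Agent.H789R2.FR.sg, lintegral_map hf measurable_subtype_coe, sigma]
  have hint : ∀ f : E n → ℂ, Measurable f → ∫ x, f x ∂(Pool.Agent.H789R2.FR.sg n) =
      ∫ x : sphere (0 : E n) 1, f (x : E n) ∂(sigma n) := by
    intro f hf
    rw [Pool.Agent.H789R2.FR.sg, integral_map measurable_subtype_coe.aemeasurable
      hf.aestronglyMeasurable, sigma]
  have hNG : NG p G = ∫⁻ x : sphere (0 : E n) 1, ‖g x‖ₑ ^ p ∂(sigma n) := by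
    unfold NG
    rw [hlint _ (hGm.enorm.pow_const p)]
    apply lintegral_congr_ae
    filter_upwards [hGg] with x hx
    rw [hx]
  -- the degrees
  have hvan : ∀ k, k ∉ {k | Occurs g k} → ∀ x : E n, ‖x‖ = 1 → Yk G k x = 0 := by
    intro k hk x hx
    have hk' : ¬ Occurs g k := hk
    unfold Yk
    have hkm : Measurable fun y : E n => G y * (Zg (lam n) (⟪x, y⟫ : ℝ) k : ℂ) :=
      hGm.mul (ker_meas1 k x)
    rw [hint _ hkm]
    by_contra hne
    apply hk'
    refine ⟨MvPolynomial.C (((k : ℝ) + lam n) / lam n : ℂ) * Zq x k, C_mul_hom _ (Zq_hom x k),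
      ?_, ?_⟩
    · have h1 : Lap (MvPolynomial.C (((k : ℝ) + lam n) / lam n : ℂ) * Zq x k) = 0 := by
        rw [Lap_C]
        have h2 : Lap (Zq x k) = 0 := Zq_harm x hx k
        rw [h2, mul_zero]
      exact h1
    · intro h0
      apply hne
      rw [← h0]
      apply integral_congr_ae
      filter_upwards [hGg] with y hy
      have hy1 : ‖(y : E n)‖ = 1 := by
        have := y.2
        rwa [mem_sphere_zero_iff_norm] at this
      have h3 : MvPolynomial.eval (fun i => (((y : E n) i : ℝ) : ℂ))
          (MvPolynomial.C (((k : ℝ) + lam n) / lam n : ℂ) * Zq x k) =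
          (Zg (lam n) (⟪x, (y : E n)⟫ : ℝ) k : ℂ) := by
        have h4 := ev_Zq x (y : E n) hy1 k
        have h5 : MvPolynomial.eval (fun i => (((y : E n) i : ℝ) : ℂ)) (Zq x k) =
            (Cg (lam n) (⟪x, (y : E n)⟫ : ℝ) k : ℂ) := h4
        rw [map_mul, MvPolynomial.eval_C, h5]
        unfold Zg
        push_cast
        ring
      rw [h3, hy]
  have hmain := hT {k | Occurs g k} (fun k hk l hl hpar hkl => hgap k l hk hl hpar hkl) G hGm hvan
  -- the Fourier transform in terms of `T`
  have hsf := Pool.Agent.H789R2.FR.sg_finite n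
  have hTG : ∀ ξ : E n, ft g ξ = Pool.Agent.H789R2.FR.T G ((2 * Real.pi) • ξ) := by
    intro ξ
    unfold ft Pool.Agent.H789R2.FR.T
    have hm : Measurable fun w : E n =>
        Complex.exp (-((⟪(2 * Real.pi) • ξ, w⟫ : ℝ) : ℂ) * Complex.I) * G w := by
      have h2 : Measurable fun w : E n =>
          Complex.exp (-((⟪(2 * Real.pi) • ξ, w⟫ : ℝ) : ℂ) * Complex.I) :=
        (by fun_prop : Continuous _).measurable
      exact h2.mul hGm
    rw [hint _ hm]
    apply integral_congr_ae
    filter_upwards [hGg] with x hx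
    rw [hx, inner_smul_left, real_inner_comm]
    simp
  have hfun : ft g = fun ξ => Pool.Agent.H789R2.FR.T G ((2 * Real.pi) • ξ) := funext hTG
  have hTm : Measurable (Pool.Agent.H789R2.FR.T G) :=
    (Pool.Agent.H789R2.FR.L2.measurable_T G hGm).measurable
  have h2pi : (2 * Real.pi) ≠ 0 := by positivity
  have hme : Measurable (ft g) := by
    rw [hfun]
    exact hTm.comp (measurable_const_smul _)
  have hscale : ∫⁻ ξ : E n, ‖ft g ξ‖ₑ ^ p =
      ENNReal.ofReal |((2 * Real.pi) ^ Module.finrank ℝ (E n))⁻¹| *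
        ∫⁻ x : E n, ‖Pool.Agent.H789R2.FR.T G x‖ₑ ^ p := by
    have h3 := Measure.map_addHaar_smul (volume : Measure (E n)) h2pi
    have h4 : ∫⁻ x : E n, ‖Pool.Agent.H789R2.FR.T G x‖ₑ ^ p
        ∂(Measure.map ((2 * Real.pi) • · : E n → E n) volume) =
        ∫⁻ ξ : E n, ‖Pool.Agent.H789R2.FR.T G ((2 * Real.pi) • ξ)‖ₑ ^ p :=
      lintegral_map (hTm.enorm.pow_const p) (measurable_const_smul _)
    rw [h3, lintegral_smul_measure] at h4
    simp_rw [hTG]
    rw [← h4, smul_eq_mul]
  have hbound : ∫⁻ ξ : E n, ‖ft g ξ‖ₑ ^ p ≤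
      ENNReal.ofReal K * ∫⁻ x : sphere (0 : E n) 1, ‖g x‖ₑ ^ p ∂(sigma n) := by
    rw [hscale, hK, ENNReal.ofReal_mul (by positivity), mul_assoc, ← hNG]
    gcongr
  have hnorm : eLpNorm (ft g) (ENNReal.ofReal p) volume ≤
      (Real.toNNReal (K ^ (1 / p)) : ℝ≥0∞) * eLpNorm g (ENNReal.ofReal p) (sigma n) := by
    rw [eLpNorm_eq_lintegral_rpow_enorm_toReal hP0 ENNReal.ofReal_ne_top,
      eLpNorm_eq_lintegral_rpow_enorm_toReal hP0 ENNReal.ofReal_ne_top,
      ENNReal.toReal_ofReal hp0.le]
    calc (∫⁻ ξ : E n, ‖ft g ξ‖ₑ ^ p) ^ (1 / p)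
        ≤ (ENNReal.ofReal K * ∫⁻ x : sphere (0 : E n) 1, ‖g x‖ₑ ^ p ∂(sigma n)) ^ (1 / p) :=
          ENNReal.rpow_le_rpow hbound (by positivity)
      _ = _ := by
          rw [ENNReal.mul_rpow_of_nonneg _ _ (by positivity),
            ENNReal.ofReal_rpow_of_nonneg hK0 (by positivity)]
          rfl
  exact ⟨⟨hme.aestronglyMeasurable, lt_of_le_of_lt hnorm
    (ENNReal.mul_lt_top ENNReal.coe_lt_top hg.2)⟩, hnorm⟩

end Pool.Agent.Results.MP_6cbfb8_an.SpectralGaps
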